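import Pool.Agent.Y557.U.AbK

/-!
# The n-term abc conjecture for almost all points of all split rational curves at once

`K` is a number field of degree `d`. Consider all curves `t ↦ (P 0 (t) : ... : P (n-1) (t))` of
degree `D` in `P^(n-1)` over `K`, given by polynomials of height at most `η log X`, which meet the
coordinate hyperplanes in `q ≥ 3` points (of the projective line), all of them `K`-rational; for
example those which lie in the hyperplane `Z_1 + ... + Z_n = 0`. Their points with a parameter in
`K` or infinity, of all heights, are ordered by their radical. One exceptional set, smaller by a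
power of `X` than the set of the points with radical at most `log X` of each single curve, serves
all curves: all other points satisfy `h < M rad + c` for every `M > D / q`.
-/

set_option autoImplicit false

namespace Pool.Agent.Results.MP_7475bd_nt.AllRationalCurvesAtOnce

open NumberField IsDedekindDomain Polynomial

open Classical in
/-- the number of the different points of the projective line over `K` at which the curve
`t ↦ (P 0 (t) : ... : P (n-1) (t))` of degree `D` meets the coordinate hyperplanes (infinity is one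
of them if some `P i` has degree less than `D`) -/
noncomputable def zeros {K : Type} [Field K] {n : ℕ} (D : ℕ) (P : Fin n → K[X]) : ℕ :=
  (∏ i, P i).roots.toFinset.card + if ∃ i, (P i).natDegree < D then 1 else 0

variable {K : Type} [Field K] [NumberField K]

/-- the radical of the problem: the sum of `log N(v) / d` over the primes at which the orders of the
coordinates are not all equal -/
noncomputable def rad {n : ℕ} (z : Fin n → K) : ℝ :=
  (∑ᶠ v ∈ {v : HeightOneSpectrum (𝓞 K) | ∃ i j, v.valuation K (z i) ≠ v.valuation K (z j)},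
    Real.log (Ideal.absNorm v.asIdeal : ℝ)) / (Module.finrank ℚ K : ℝ)

/-- the absolute logarithmic height (the height of Mathlib is relative to `K`) -/
noncomputable def height {ι : Type} [Fintype ι] (z : ι → K) : ℝ :=
  Height.logHeight z / (Module.finrank ℚ K : ℝ)

/-- nonzero polynomials over `K` without a common zero, of maximal degree `D`, all of whose zeros
are in `K`, which give a curve meeting the coordinate hyperplanes in `q` points; the vector of all
their coefficients has height at most `B` -/
structure Curve (n D q : ℕ) (B : ℝ) (P : Fin n → K[X]) : Prop where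
  ne_zero : ∀ i, P i ≠ 0
  splits : ∀ i, (P i).Splits
  coprime : ∃ u : Fin n → K[X], ∑ i, u i * P i = 1
  degree_le : ∀ i, (P i).natDegree ≤ D
  degree_eq : ∃ i, (P i).natDegree = D
  points : zeros D P = q
  height_le : height (fun i : Fin n × Fin (D + 1) => (P i.1).coeff i.2) ≤ B

/-- the coordinates of the point of the curve with parameter `t`; `none` is infinity -/
def coordinates {n : ℕ} (D : ℕ) (P : Fin n → K[X]) : Option K → Fin n → K
  | some t => fun i => (P i).eval t
  | none => fun i => (P i).coeff D

/-- the points of the curve, with a parameter in the projective line over `K`, with nonzero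
coordinates and radical at most `log X`, of whatever height -/
def Points {n : ℕ} (D : ℕ) (P : Fin n → K[X]) (X : ℝ) : Set (Projectivization K (Fin n → K)) :=
  {Q | ∃ (t : Option K) (hx : coordinates D P t ≠ 0),
    Q = Projectivization.mk K (coordinates D P t) hx ∧ (∀ i, coordinates D P t i ≠ 0) ∧
    rad (coordinates D P t) ≤ Real.log X}

/-- the union of these sets over all curves of height at most `η log X` -/
def AllPoints (K : Type) [Field K] [NumberField K] (n D q : ℕ) (η X : ℝ) :
    Set (Projectivization K (Fin n → K)) :=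
  {Q | ∃ P : Fin n → K[X], Curve n D q (η * Real.log X) P ∧ Q ∈ Points D P X}

/-- the points `Q` with radical at most `log X` of curves of height at most `η log X` for which
`height < M rad + c` fails -/
def Exceptions (K : Type) [Field K] [NumberField K] (n D q : ℕ) (η M c X : ℝ) :
    Set (Projectivization K (Fin n → K)) :=
  {Q | ∃ P : Fin n → K[X], Curve n D q (η * Real.log X) P ∧
    ∃ (t : Option K) (hx : coordinates D P t ≠ 0),
      Q = Projectivization.mk K (coordinates D P t) hx ∧ (∀ i, coordinates D P t i ≠ 0) ∧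
      rad (coordinates D P t) ≤ Real.log X ∧
      M * rad (coordinates D P t) + c ≤ height (coordinates D P t)}

open Pool.Agent.Y557.U

variable {n : ℕ}

theorem rad_eq (z : Fin n → K) :
    rS (((∅ : Finset (HeightOneSpectrum (𝓞 K))) : Set (HeightOneSpectrum (𝓞 K)))) z = rad z := by
  unfold rS rad
  have h : {v : HeightOneSpectrum (𝓞 K) |
      v ∉ ((∅ : Finset (HeightOneSpectrum (𝓞 K))) : Set (HeightOneSpectrum (𝓞 K))) ∧
        v ∈ Pool.Agent.TH876.TM.supp z} =
      {v : HeightOneSpectrum (𝓞 K) | ∃ i j, v.valuation K (z i) ≠ v.valuation K (z j)} := by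
    ext v
    simp only [Set.mem_ofPred_eq, Finset.coe_empty, Set.mem_empty_iff_false, not_false_eq_true,
      true_and]
    rfl
  rw [h]
  rfl

theorem coordinates_eq (D : ℕ) (P : Fin n → K[X]) : coordinates D P = co D P := by
  funext t
  cases t <;> rfl

theorem curve_ck {D q : ℕ} {B : ℝ} {P : Fin n → K[X]} (h : Curve n D q B P) (hB : 0 ≤ B) :
    Ck n D q B (∅ : Finset (HeightOneSpectrum (𝓞 K))) P :=
  ⟨h.ne_zero, h.splits, h.coprime, h.degree_le, h.degree_eq, h.points, by
    rw [Finset.sum_empty, zero_div]
    exact hB, h.height_le⟩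

theorem points_eq (D : ℕ) (P : Fin n → K[X]) (X : ℝ) : Points D P X =
    Pk D ((∅ : Finset (HeightOneSpectrum (𝓞 K))) : Set (HeightOneSpectrum (𝓞 K))) P X := by
  unfold Points Pk
  simp only [rad_eq, coordinates_eq]

theorem allPoints_sub (D q : ℕ) {η X : ℝ} (hη : 0 ≤ η) (hX : 1 ≤ X) :
    AllPoints K n D q η X ⊆ APk K n D q η X := by
  rintro Q ⟨P, hP, hQ⟩
  rw [points_eq] at hQ
  exact ⟨∅, P, curve_ck hP (mul_nonneg hη (Real.log_nonneg hX)), hQ⟩

theorem exceptions_sub (D q : ℕ) {η X : ℝ} (M c : ℝ) (hη : 0 ≤ η) (hX : 1 ≤ X) :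
    Exceptions K n D q η M c X ⊆ EXk K n D q η M c X := by
  rintro Q ⟨P, hP, t, hx, h⟩
  rw [← rad_eq] at h
  simp only [coordinates_eq] at h hx
  exact ⟨∅, P, curve_ck hP (mul_nonneg hη (Real.log_nonneg hX)), t, hx, h⟩

/-- Let `K` be a number field of degree `d`, `D ≥ 1` and `q ≥ 3`.
(1) For every `δ > 0` there is `η > 0` such that the number of the points with nonzero coordinates
and radical at most `log X`, of whatever height, on all curves of height at most `η log X` together
is at most `C X ^ (2 d / q + δ)`, and the number of those on each single one is at least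
`X ^ (2 d / q - δ)` for large `X`.
(2) For every `M > D / q` there are `η, ν > 0` such that for every real `c` at most
`C X ^ (2 d / q - ν)` of all these points, for large `X` at most `X ^ (-ν)` times the number of the
points of each single curve, violate the inequality `h < M rad + c`.
(3) All points with nonzero coordinates of a curve of height at most `B` satisfy
`D rad ≤ q h + C (B + 1)`. -/
theorem result (K : Type) [Field K] [NumberField K] (n D q : ℕ) (hD : 1 ≤ D) (hq : 3 ≤ q) :
    (∀ δ : ℝ, 0 < δ → ∃ η : ℝ, 0 < η ∧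
      (∃ C : ℝ, ∀ X : ℝ, 1 ≤ X → (AllPoints K n D q η X).Finite ∧
        ((AllPoints K n D q η X).ncard : ℝ) ≤
          C * X ^ (2 * (Module.finrank ℚ K : ℝ) / (q : ℝ) + δ)) ∧
      ∃ X₀ : ℝ, ∀ X : ℝ, X₀ ≤ X → ∀ P : Fin n → K[X], Curve n D q (η * Real.log X) P →
        X ^ (2 * (Module.finrank ℚ K : ℝ) / (q : ℝ) - δ) ≤ ((Points D P X).ncard : ℝ)) ∧
    (∀ M : ℝ, (D : ℝ) / q < M → ∃ η ν : ℝ, 0 < η ∧ 0 < ν ∧ ∀ c : ℝ,
      (∃ C : ℝ, ∀ X : ℝ, 1 ≤ X → (Exceptions K n D q η M c X).Finite ∧
        ((Exceptions K n D q η M c X).ncard : ℝ) ≤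
          C * X ^ (2 * (Module.finrank ℚ K : ℝ) / (q : ℝ) - ν)) ∧
      ∃ X₀ : ℝ, ∀ X : ℝ, X₀ ≤ X → ∀ P : Fin n → K[X], Curve n D q (η * Real.log X) P →
        ((Exceptions K n D q η M c X).ncard : ℝ) ≤ X ^ (-ν) * ((Points D P X).ncard : ℝ)) ∧
    ∃ C : ℝ, ∀ (B : ℝ) (P : Fin n → K[X]), 0 ≤ B → Curve n D q B P →
      ∀ t : Option K, (∀ i, coordinates D P t i ≠ 0) →
      D * rad (coordinates D P t) ≤ q * height (coordinates D P t) + C * (B + 1) := by
  obtain ⟨h1, h2, C3, -, h3⟩ := abk_main K n D q hD hq
  refine ⟨fun δ hδ => ?_, fun M hM => ?_, ?_⟩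
  · obtain ⟨η, hη, ⟨C, hC⟩, X0, hX0⟩ := h1 δ hδ
    refine ⟨η, hη, ⟨C, fun X hX => ?_⟩, max 1 X0, fun X hX P hP => ?_⟩
    · obtain ⟨h4, h5⟩ := hC X hX
      have h6 := allPoints_sub (K := K) (n := n) D q hη.le hX
      refine ⟨h4.subset h6, le_trans ?_ h5⟩
      exact_mod_cast Set.ncard_le_ncard h6 h4
    · have k1 : 1 ≤ X := (le_max_left _ _).trans hX
      rw [points_eq]
      exact hX0 X ((le_max_right _ _).trans hX) ∅ P
        (curve_ck hP (mul_nonneg hη.le (Real.log_nonneg k1)))
  · obtain ⟨η, ν, hη, hν, h4⟩ := h2 M hM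
    refine ⟨η, ν, hη, hν, fun c => ?_⟩
    obtain ⟨⟨C, hC⟩, X0, hX0⟩ := h4 c
    refine ⟨⟨C, fun X hX => ?_⟩, max 1 X0, fun X hX P hP => ?_⟩
    · obtain ⟨h5, h6⟩ := hC X hX
      have h7 := exceptions_sub (K := K) (n := n) D q M c hη.le hX
      refine ⟨h5.subset h7, le_trans ?_ h6⟩
      exact_mod_cast Set.ncard_le_ncard h7 h5
    · have k1 : 1 ≤ X := (le_max_left _ _).trans hX
      obtain ⟨h5, -⟩ := hC X k1
      have h7 := exceptions_sub (K := K) (n := n) D q M c hη.le k1
      rw [points_eq]
      refine le_trans ?_ (hX0 X ((le_max_right _ _).trans hX) ∅ P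
        (curve_ck hP (mul_nonneg hη.le (Real.log_nonneg k1))))
      exact_mod_cast Set.ncard_le_ncard h7 h5
  · refine ⟨C3, fun B P hB hP t hne => ?_⟩
    have hck := curve_ck hP hB
    have hx : co D P t ≠ 0 := by
      obtain ⟨i, -⟩ := hP.degree_eq
      rw [coordinates_eq] at hne
      exact fun h => hne i (congrFun h i)
    rw [coordinates_eq] at hne ⊢
    have h4 := h3 B ∅ P hck t hx hne
    rw [rad_eq] at h4
    exact h4

end Pool.Agent.Results.MP_7475bd_nt.AllRationalCurvesAtOnce
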