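import Mathlib
import Pool.Agent.Y594.NT3.AuxB

/-! The `n`-term abc inequality `h < M rad + c` over `ℚ` for points of polynomial height: how many
points outside a proper Zariski closed subset of the hyperplane violate it? -/

set_option autoImplicit false

namespace Pool.Agent.Results.MP_7475bd_nt.ExceptionsOffClosedSubsets

open Finset

/-- `h(P) = log max |z_i|` for a point `P` with coprime integer coordinates `z` -/
noncomputable def h {n : ℕ} (z : Fin n → ℤ) : ℝ :=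
  Real.log ((univ.sup fun j => (z j).natAbs : ℕ) : ℝ)

open scoped Classical in
/-- `rad(P)`: the sum of `log p` over the primes `p` for which the `ord_p (z_i)` are not all
equal (for nonzero integers `z_i` such a prime divides one of them) -/
noncomputable def rad {n : ℕ} (z : Fin n → ℤ) : ℝ :=
  ∑ p ∈ (∏ i, z i).natAbs.primeFactors.filter
    (fun p => ∃ i j, padicValInt p (z i) ≠ padicValInt p (z j)), Real.log p

/-- the sum of `log p` over the primes that divide `a` -/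
noncomputable def logRad (a : ℤ) : ℝ := ∑ p ∈ a.natAbs.primeFactors, Real.log p

/-- the points over `ℚ` of the hyperplane `z_1 + ... + z_n = 0` with nonzero coordinates (every
point is given by its two vectors of coprime integer coordinates), of height at most `A log X`,
for which the product of the radicals of the coordinates is at most `X` -/
def Points (n : ℕ) (A X : ℝ) : Set (Fin n → ℤ) :=
  {z | univ.gcd z = 1 ∧ ∑ i, z i = 0 ∧ (∀ i, z i ≠ 0) ∧ h z ≤ A * Real.log X ∧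
    ∑ i, logRad (z i) ≤ Real.log X}

/-- the points among them that violate `h < M rad + c` -/
def Exceptions (n : ℕ) (A M c X : ℝ) : Set (Fin n → ℤ) :=
  {z ∈ Points n A X | M * rad z + c ≤ h z}

/-- the polynomial `F` does not vanish at every rational point of the hyperplane -/
def NotZeroOnH {n : ℕ} (F : MvPolynomial (Fin n) ℚ) : Prop :=
  ∃ w : Fin n → ℚ, ∑ i, w i = 0 ∧ MvPolynomial.eval w F ≠ 0

/-- the members of `s` outside the zero set of `F` -/
def Off {n : ℕ} (F : MvPolynomial (Fin n) ℚ) (s : Set (Fin n → ℤ)) : Set (Fin n → ℤ) :=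
  {z ∈ s | MvPolynomial.eval (fun i => (z i : ℚ)) F ≠ 0}

theorem logRad_eq (a : ℤ) : logRad a = Pool.Agent.Y594.NT.N1 ∅ a := by
  unfold logRad Pool.Agent.Y594.NT.N1
  rw [sdiff_empty]

theorem rad_eq {n : ℕ} {z : Fin n → ℤ} (h1 : univ.gcd z = 1) (hne : ∀ i, z i ≠ 0) :
    rad z = Real.log (Pool.Agent.H785R2.ABC.rad (∏ i, (z i).natAbs) : ℝ) := by
  classical
  have e1 : (∏ i, z i).natAbs = ∏ i, (z i).natAbs := by
    rw [← Int.natAbsHom_apply, map_prod]; rfl
  have e2 : (∏ i, z i).natAbs.primeFactors.filter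
      (fun p => ∃ i j, padicValInt p (z i) ≠ padicValInt p (z j)) =
      (∏ i, (z i).natAbs).primeFactors := by
    rw [e1]
    apply Finset.filter_true_of_mem
    intro p hp
    rw [Nat.mem_primeFactors] at hp
    obtain ⟨hp, hpd, -⟩ := hp
    obtain ⟨i, -, hi⟩ := (Nat.Prime.prime hp).exists_mem_finset_dvd hpd
    have hj : ∃ j, ¬ (p : ℤ) ∣ z j := by
      by_contra hcon
      push Not at hcon
      have h2 : (p : ℤ) ∣ univ.gcd z := Finset.dvd_gcd fun j _ => hcon j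
      rw [h1] at h2
      exact hp.one_lt.ne' (by
        have := Int.isUnit_iff.1 (isUnit_of_dvd_one h2)
        omega)
    obtain ⟨j, hj⟩ := hj
    refine ⟨i, j, ?_⟩
    have : Fact p.Prime := ⟨hp⟩
    have h3 : padicValInt p (z j) = 0 := padicValInt.eq_zero_of_not_dvd hj
    have h4 : 1 ≤ padicValInt p (z i) := by
      unfold padicValInt
      exact one_le_padicValNat_of_dvd (Int.natAbs_ne_zero.2 (hne i)) hi
    omega
  unfold rad Pool.Agent.H785R2.ABC.rad
  rw [Nat.cast_prod, Real.log_prod]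
  · exact Finset.sum_congr (by convert e2) fun _ _ => rfl
  · intro p hp
    exact_mod_cast (Nat.prime_of_mem_primeFactors hp).pos.ne'

theorem Points_eq (m : ℕ) (A X : ℝ) : Points (m + 2) A X = Pool.Agent.Y594.NT.Tup m ∅ A X := by
  unfold Points Pool.Agent.Y594.NT.Tup
  simp only [logRad_eq]
  rfl

theorem finite_points (m : ℕ) (A X : ℝ) : (Points (m + 2) A X).Finite := by
  rw [Points_eq]; exact Pool.Agent.Y594.NT.Tup_finite m ∅ A X

theorem adm {m : ℕ} {A A' X : ℝ} (hX : 1 ≤ X) (hA : A ≤ A') {z : Fin (m + 2) → ℤ}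
    (hz : z ∈ Points (m + 2) A X) : Pool.Agent.Y594.NT.Adm A' X z := by
  have hX0 : 0 < X := by linarith
  obtain ⟨h1, h2, h3, h4, h5⟩ := hz
  refine ⟨h1, h2, h3, fun i => ?_, ?_⟩
  · have h6 := Pool.Agent.Y594.NT.sup_le_of_ht h1 hX0 h4
    calc ((z i).natAbs : ℝ) ≤ ((univ.sup fun j => (z j).natAbs : ℕ) : ℝ) := by
          exact_mod_cast le_sup (f := fun j => (z j).natAbs) (mem_univ i)
      _ ≤ X ^ A := h6
      _ ≤ X ^ A' := Real.rpow_le_rpow_of_exponent_le hX hA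
  · simp only [logRad_eq] at h5
    rw [Pool.Agent.Y594.NT.sum_N1] at h5
    have h6 : (0 : ℝ) < ∏ i, (Pool.Agent.Y594.NT.radS ∅ (z i) : ℝ) :=
      prod_pos fun i _ => by
        have := Pool.Agent.Y594.NT.one_le_radS ∅ (z i)
        linarith
    have h7 := Pool.Agent.Y594.NT.le_of_log_le h6 hX h5
    simp only [Pool.Agent.Y594.NT.radS_empty] at h7
    exact h7

theorem exc {m : ℕ} {A A' M c X : ℝ} (hX : 1 ≤ X) (hA : A ≤ A') {z : Fin (m + 2) → ℤ}
    (hz : z ∈ Exceptions (m + 2) A M c X) : Pool.Agent.Y594.NT.Adm A' X z ∧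
      M * Real.log (Pool.Agent.H785R2.ABC.rad (∏ i, (z i).natAbs) : ℝ) + c ≤
        Pool.Agent.Y594.NT.ht z := by
  refine ⟨adm hX hA hz.1, ?_⟩
  rw [← rad_eq hz.1.1 hz.1.2.2.1]
  exact hz.2

theorem mem_points {m : ℕ} {A X : ℝ} {z : Fin (m + 2) → ℤ}
    (h1 : univ.gcd z = 1) (h2 : ∑ i, z i = 0) (h3 : ∀ j : Fin (m + 1), 0 < z j.castSucc)
    (h4 : Pool.Agent.Y594.NT.ht z ≤ A * Real.log X)
    (h5 : ∑ i, Pool.Agent.Y594.NT.N1 ∅ (z i) ≤ Real.log X) : z ∈ Points (m + 2) A X := by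
  rw [Points_eq]
  refine ⟨h1, h2, fun i => ?_, h4, h5⟩
  refine Fin.lastCases ?_ (fun j => (h3 j).ne') i
  rw [Fin.sum_univ_castSucc] at h2
  have : 0 < ∑ j : Fin (m + 1), z j.castSucc := sum_pos (fun j _ => h3 j) univ_nonempty
  omega

/-- For all `n ≥ 3` and `A > 1 / n`:
(1) the number of points has the exact order `X ^ (1 - 1 / n)`, and so has the number of points
outside every proper Zariski closed subset of the hyperplane;
(2) for every `M > 1 / n` and every `c` all points but a power-saving proportion satisfy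
`h < M rad + c`;
(3) for all `M` in an interval `[1 / n, M₀]` and all `c` the number of points that violate
`h < M rad + c` is `X ^ (1 - M + o(1))`, and this remains so outside every proper Zariski closed
subset of the hyperplane. -/
theorem result : ∀ n : ℕ, 3 ≤ n → ∀ A : ℝ, (1 : ℝ) / n < A →
    (∀ X : ℝ, (Points n A X).Finite) ∧
    ((∃ C : ℝ, ∀ X : ℝ, 1 ≤ X → ((Points n A X).ncard : ℝ) ≤ C * X ^ (((n : ℝ) - 1) / n)) ∧
      ∃ a : ℝ, 0 < a ∧ ∀ F : MvPolynomial (Fin n) ℚ, NotZeroOnH F → ∃ X₀ : ℝ, ∀ X : ℝ, X₀ ≤ X →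
        a * X ^ (((n : ℝ) - 1) / n) ≤ ((Off F (Points n A X)).ncard : ℝ)) ∧
    (∀ M : ℝ, (1 : ℝ) / n < M → ∀ c : ℝ, ∃ ν : ℝ, 0 < ν ∧ ∃ C : ℝ, ∀ X : ℝ, 1 ≤ X →
      ((Exceptions n A M c X).ncard : ℝ) ≤ C * X ^ (((n : ℝ) - 1) / n - ν)) ∧
    (∃ M₀ : ℝ, (1 : ℝ) / n < M₀ ∧ ∀ c δ : ℝ, 0 < δ →
      (∃ X₀ : ℝ, ∀ X : ℝ, X₀ ≤ X → ∀ M : ℝ, (1 : ℝ) / n ≤ M → M ≤ M₀ →
        ((Exceptions n A M c X).ncard : ℝ) ≤ X ^ (1 - M + δ)) ∧
      ∀ F : MvPolynomial (Fin n) ℚ, NotZeroOnH F →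
        ∃ X₀ : ℝ, ∀ X : ℝ, X₀ ≤ X → ∀ M : ℝ, (1 : ℝ) / n ≤ M → M ≤ M₀ →
          X ^ (1 - M - δ) ≤ ((Off F (Exceptions n A M c X)).ncard : ℝ)) := by
  intro n hn A hA
  obtain ⟨m, rfl⟩ : ∃ m, n = m + 2 := ⟨n - 2, by omega⟩
  have hm : 1 ≤ m := by omega
  have hm1 : (1 : ℝ) ≤ m := by exact_mod_cast hm
  have hN0 : (0 : ℝ) < (m : ℝ) + 2 := by positivity
  have e1 : (((m + 2 : ℕ) : ℝ) - 1) / ((m + 2 : ℕ) : ℝ) = ((m : ℝ) + 1) / (m + 2) := by
    push_cast; congr 1; ring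
  have e2 : (1 : ℝ) / ((m + 2 : ℕ) : ℝ) = 1 / ((m : ℝ) + 2) := by push_cast; rfl
  rw [e1, e2]
  rw [e2] at hA
  obtain ⟨Ct, hCt, htot⟩ := Pool.Agent.Y594.NT.tot_upper m hm (max A 1) (le_max_right _ _)
  obtain ⟨hup1, ν, hν, hup2⟩ := Pool.Agent.Y594.NT3.up_all m hm (max A 1) (le_max_right _ _)
  refine ⟨finite_points m A, ⟨?_, ?_⟩, ?_, ?_⟩
  · exact ⟨Ct, fun X hX => Pool.Agent.Y594.NT.ncard_le _ _ (by positivity) fun E hE =>
        htot X hX E fun z hz => adm hX (le_max_left _ _) (hE z hz)⟩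
  · obtain ⟨a, ha, hall⟩ := Pool.Agent.Y594.NT3.low_all m hm
    refine ⟨a, ha, fun F hF => ?_⟩
    obtain ⟨w, hw, hFw⟩ := hF
    obtain ⟨G, hG, hFG⟩ := Pool.Agent.Y594.NT3.elim m F w hw hFw
    obtain ⟨X₀, hX₀⟩ := hall G hG
    refine ⟨max X₀ 1, fun X hX => ?_⟩
    have hX1 : 1 ≤ X := (le_max_right _ _).trans hX
    obtain ⟨T, hT, hcard⟩ := hX₀ X ((le_max_left _ _).trans hX)
    refine hcard.trans ?_
    rw [← Set.ncard_coe_finset]
    have hsub : (T : Set (Fin (m + 2) → ℤ)) ⊆ Off F (Points (m + 2) A X) := by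
      intro z hz
      obtain ⟨g1, g2, g3, g4, g5, g6⟩ := hT z hz
      refine ⟨mem_points g1 g2 g3 (g4.trans ?_) g5, ?_⟩
      · exact mul_le_mul_of_nonneg_right hA.le (Real.log_nonneg hX1)
      · rw [← hFG (fun i => (z i : ℚ)) (by exact_mod_cast g2)]
        exact g6
    exact_mod_cast Set.ncard_le_ncard hsub ((finite_points m A X).subset fun z hz => hz.1)
  · intro M hM c
    obtain ⟨ν', hν', C, hC, h1⟩ := hup1 c M hM
    exact ⟨ν', hν', C, fun X hX => Pool.Agent.Y594.NT.ncard_le _ _ (by positivity) fun E hE =>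
      h1 X hX E fun z hz => exc hX (le_max_left _ _) (hE z hz)⟩
  · obtain ⟨g, hg⟩ : ∃ g : ℝ, g = min ((A - 1 / ((m : ℝ) + 2)) / 2)
      ((1 / ((m : ℝ) + 1) - 1 / ((m : ℝ) + 2)) / 2) := ⟨_, rfl⟩
    have hg0 : 0 < g := by
      rw [hg]
      apply lt_min (by linarith)
      have : 1 / ((m : ℝ) + 2) < 1 / ((m : ℝ) + 1) :=
        one_div_lt_one_div_of_lt (by positivity) (by linarith)
      linarith
    have hg1 : 1 / ((m : ℝ) + 2) + 2 * g ≤ A := by
      have : g ≤ (A - 1 / ((m : ℝ) + 2)) / 2 := by rw [hg]; exact min_le_left _ _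
      linarith
    have hg2 : 1 / ((m : ℝ) + 2) + 2 * g ≤ 1 / ((m : ℝ) + 1) := by
      have : g ≤ (1 / ((m : ℝ) + 1) - 1 / ((m : ℝ) + 2)) / 2 := by rw [hg]; exact min_le_right _ _
      linarith
    have hm1' : 1 / ((m : ℝ) + 1) ≤ 1 := by rw [div_le_one (by positivity)]; linarith
    refine ⟨1 / ((m : ℝ) + 2) + min ν g, by linarith [lt_min hν hg0], fun c δ hδ => ⟨?_, ?_⟩⟩
    · obtain ⟨X₀, hX₀1, hX₀⟩ := hup2 c δ hδ
      refine ⟨X₀, fun X hX M hM1 hM2 => ?_⟩
      have hX1 : 1 ≤ X := hX₀1.trans hX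
      exact Pool.Agent.Y594.NT.ncard_le _ _ (by positivity) fun E hE =>
        hX₀ X hX M hM1 (hM2.trans (by linarith [min_le_left ν g]))
          (hM2.trans (by linarith [min_le_right ν g])) E
          fun z hz => exc hX1 (le_max_left _ _) (hE z hz)
    · intro F hF
      obtain ⟨w, hw, hFw⟩ := hF
      obtain ⟨G, hG, hFG⟩ := Pool.Agent.Y594.NT3.elim m F w hw hFw
      obtain ⟨X₀, hX₀1, hX₀⟩ := Pool.Agent.Y594.NT3.low_off m hm G hG c δ g hδ hg0 hg2
      refine ⟨X₀, fun X hX M hM1 hM2 => ?_⟩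
      have hX1 : 1 ≤ X := hX₀1.trans hX
      obtain ⟨T, hT, hcard⟩ := hX₀ X hX M hM1 (hM2.trans (by linarith [min_le_right ν g]))
      refine hcard.trans ?_
      rw [← Set.ncard_coe_finset]
      have hsub : (T : Set (Fin (m + 2) → ℤ)) ⊆ Off F (Exceptions (m + 2) A M c X) := by
        intro z hz
        obtain ⟨g1, g2, g3, g4, g5, g6, g7⟩ := hT z hz
        have hmem : z ∈ Points (m + 2) A X := by
          refine mem_points g1 g2 g3 (g5.trans ?_) ?_
          · exact mul_le_mul_of_nonneg_right hg1 (Real.log_nonneg hX1)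
          · rw [Pool.Agent.Y594.NT.sum_N1]
            simp only [Pool.Agent.Y594.NT.radS_empty]
            apply Real.log_le_log _ g4
            exact prod_pos fun i _ => by exact_mod_cast Pool.Agent.H785R2.ABC.rad_pos' _
        refine ⟨⟨hmem, ?_⟩, ?_⟩
        · rw [rad_eq hmem.1 hmem.2.2.1]
          exact g6
        · rw [← hFG (fun i => (z i : ℚ)) (by exact_mod_cast g2)]
          exact g7
      exact_mod_cast Set.ncard_le_ncard hsub
        ((finite_points m A X).subset fun z hz => hz.1.1)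

end Pool.Agent.Results.MP_7475bd_nt.ExceptionsOffClosedSubsets
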