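import Mathlib
import Pool.Agent.Y902.GN.Sc2

/-!
# Products of powers of few integers on a hyperplane lie on few proper subspaces

For all `n`, `N`, `E` and `ε > 0` there are `K` and `δ > 0` such that for every `X ≥ 2` and all
nonzero integers `u 1, …, u n` of absolute value at most `exp (X ^ δ)` there are at most `X ^ ε`
linear subspaces of `ℚ ^ n`, none of them containing the hyperplane `H : ∑ u i * z i = 0`, with the
following property: if `a` is a primitive integral point of `H` with all `a i ≠ 0`, such that
`a i = s i * ∏ x j ^ (e i j)` with `|s i| ≤ X ^ E` and `N` integers `1 ≤ x j ≤ X` (for example, if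
all prime factors of the `a i` are at most `X` and there are at most `N` of them), such that some `|u i * a i|` is larger than `X ^ K` times the greatest common divisor
of all `u j * a j`, and such that all `|a i| ≤ exp (X ^ δ)`, then `a` lies in one of the subspaces.

Method: ultraproduct, `p`-adic determinant method, decomposition of the relations between the
terms; this shows that the points fall into few classes such that the quotients of the coordinates
of two points of the same class have small height. The points of a class span a proper subspace,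
because otherwise the coordinates of a point of the class are determined up to small factors by a
determinant of small numbers.
-/

set_option autoImplicit false

namespace Pool.Agent.Results.MP_7475bd_nt.FewGenerators

/-- the integers `a i` are, up to factors `|s i| ≤ X ^ E`, products of powers of the same `N`
positive integers `x j ≤ X` -/
def FewBases {n : ℕ} (N E X : ℕ) (a : Fin n → ℤ) : Prop :=
  ∃ (s : Fin n → ℤ) (x : Fin N → ℕ) (e : Fin n → Fin N → ℕ),
    (∀ j, 1 ≤ x j ∧ x j ≤ X) ∧ (∀ i, |s i| ≤ (X : ℤ) ^ E) ∧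
      ∀ i, a i = s i * ∏ j, (x j : ℤ) ^ e i j

/-- `a` is a primitive integral point of the hyperplane `∑ u i * z i = 0` without zero
coordinates -/
def OnHyperplane {n : ℕ} (u a : Fin n → ℤ) : Prop :=
  ∑ i, u i * a i = 0 ∧ (∀ i, a i ≠ 0) ∧ ∀ d : ℕ, (∀ i, (d : ℤ) ∣ a i) → d = 1

open Pool.Agent.Y902.GN

/-- For all `n`, `N`, `E` and `ε > 0` there are `K` and `δ > 0` such that for every `X ≥ 2` and all
nonzero integers `|u i| ≤ exp (X ^ δ)` at most `X ^ ε` linear subspaces, none containing the
hyperplane `∑ u i * z i = 0`, contain all primitive integral points `a` of this hyperplane without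
zero coordinates with few bases, with `X ^ K * gcd (u j * a j) < max |u i * a i|` and
`|a i| ≤ exp (X ^ δ)`. -/
theorem result (n N E : ℕ) (ε : ℝ) (hε : 0 < ε) : ∃ (K : ℕ) (δ : ℝ), 0 < δ ∧
    ∀ (X : ℕ) (u : Fin n → ℤ), 2 ≤ X →
      (∀ i, u i ≠ 0 ∧ ((|u i| : ℤ) : ℝ) ≤ Real.exp ((X : ℝ) ^ δ)) →
      ∃ L : Finset (Submodule ℚ (Fin n → ℚ)), (L.card : ℝ) ≤ (X : ℝ) ^ ε ∧
        (∀ W ∈ L, ∃ z : Fin n → ℚ, ∑ i, (u i : ℚ) * z i = 0 ∧ z ∉ W) ∧
        ∀ a : Fin n → ℤ, OnHyperplane u a → FewBases N E X a →
          (∃ i, (X : ℤ) ^ K * Finset.univ.gcd (fun j => u j * a j) < |u i * a i|) →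
          (∀ i, ((|a i| : ℤ) : ℝ) ≤ Real.exp ((X : ℝ) ^ δ)) →
          ∃ W ∈ L, (fun i => (a i : ℚ)) ∈ W := by
  obtain ⟨K, δ, hδ, H⟩ := sg n N E ε hε
  refine ⟨K, δ, hδ, fun X u hX hu => ?_⟩
  obtain ⟨L, hL1, hL2, hL3⟩ := H X hX u hu
  refine ⟨L, hL1, fun W hW => ?_, fun a ha hf ht hi => ?_⟩
  · have h := hL2 W hW
    push Not at h
    exact h
  · exact hL3 a ⟨ha.2.1, ha.2.2, ha.1, hi, hf⟩ ht

end Pool.Agent.Results.MP_7475bd_nt.FewGenerators
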