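import Mathlib
import Pool.Agent.Y902.GN.Nf2

/-!
# The n-term abc conjecture for sums of unlike powers

We consider the points `(s i * y i ^ m i)` of the hyperplane `∑ u i * z i = 0`, where the `y i`
are integers of absolute value at most `Y`, the exponents `m i` are at least `R` and different in
general, and the integers `s i` are at most `Y ^ E`; the coordinates of the point have no common
factor, and no partial sum vanishes.  For all `s` together, at most `Y ^ ε` vectors `(y i ^ m i)`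
occur among these points up to height `exp (Y ^ δ)`.
-/

set_option autoImplicit false

namespace Pool.Agent.Results.MP_7475bd_nt.UnlikePowers

open Pool.Agent.Y902.GN

/-- `(s i * y i ^ m i)` is a primitive point of the hyperplane `∑ u i * z i = 0` without vanishing
partial sums, and of height at most `V`. -/
structure Point {n : ℕ} (V : ℝ) (u s y : Fin n → ℤ) (m : Fin n → ℕ) : Prop where
  sum : ∑ i, u i * (s i * y i ^ m i) = 0
  nvs : ∀ K : Finset (Fin n), K.Nonempty → K ≠ Finset.univ →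
    ∑ i ∈ K, u i * (s i * y i ^ m i) ≠ 0
  primitive : ∀ d : ℕ, (∀ i, (d : ℤ) ∣ s i * y i ^ m i) → d = 1
  height_le : ∀ i, ((|s i * y i ^ m i| : ℤ) : ℝ) ≤ V

/-- The vectors `(y i ^ m i)` of powers with exponents at least `R` which occur in points, with
bases of size at most `Y`, not all of absolute value `1`, and cofactors of size at most `Y ^ E`. -/
def powerVectors (n E R : ℕ) (δ : ℝ) (Y : ℕ) (u : Fin n → ℤ) : Set (Fin n → ℤ) :=
  {w | ∃ (s y : Fin n → ℤ) (m : Fin n → ℕ), (∀ i, w i = y i ^ m i) ∧ (∀ i, R ≤ m i) ∧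
    (∀ i, y i ≠ 0 ∧ |y i| ≤ (Y : ℤ)) ∧ (∃ i, 2 ≤ |y i|) ∧
    (∀ i, s i ≠ 0 ∧ |s i| ≤ (Y : ℤ) ^ E) ∧ Point (Real.exp ((Y : ℝ) ^ δ)) u s y m}

/-- **Few vectors of unlike powers.** -/
theorem result : ∀ (n E : ℕ) (ε : ℝ), 0 < ε → ∃ (R : ℕ) (δ : ℝ), 0 < δ ∧
    ∀ (Y : ℕ), 1 ≤ Y → ∀ (u : Fin n → ℤ),
      (∀ i, u i ≠ 0 ∧ ((|u i| : ℤ) : ℝ) ≤ Real.exp ((Y : ℝ) ^ δ)) →
      (powerVectors n E R δ Y u).Finite ∧
      ((powerVectors n E R δ Y u).ncard : ℝ) ≤ (Y : ℝ) ^ ε := by
  intro n E ε hε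
  obtain ⟨R, δ, hδ, H⟩ := nfc n E ε hε
  refine ⟨R, δ, hδ, fun Y hY u hu => ?_⟩
  obtain ⟨T, _, hT2, hT3⟩ := max_sep (powerVectors n E R δ Y u) (fun a b => a = b)
    (fun _ => rfl) (fun _ _ h => h.symm) ((Y : ℝ) ^ ε)
    (fun T h1 _ => H Y hY u hu T (fun w hw => by
      obtain ⟨s, y, m, g1, g2, g3, g4, g5, g6⟩ := h1 w hw
      refine ⟨s, y, m, ⟨g3, g2, g1, g5, ?_, fun K k1 k2 => ?_, fun d hd => ?_, fun i => ?_⟩, g4⟩
      · rw [← g6.sum]
        exact Finset.sum_congr rfl fun i _ => by rw [g1 i]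
      · have := g6.nvs K k1 k2
        rwa [Finset.sum_congr rfl fun i _ => by rw [← g1 i]] at this
      · exact g6.primitive d fun i => by
          have := hd i
          rwa [g1 i] at this
      · rw [g1 i]
        exact g6.height_le i))
  have hsub : powerVectors n E R δ Y u ⊆ (T : Set (Fin n → ℤ)) := by
    intro w hw
    obtain ⟨b, hb, rfl⟩ := hT3 w hw
    exact Finset.mem_coe.2 hb
  refine ⟨T.finite_toSet.subset hsub, ?_⟩
  have h1 : (powerVectors n E R δ Y u).ncard ≤ T.card := by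
    rw [← Set.ncard_coe_finset]
    exact Set.ncard_le_ncard hsub T.finite_toSet
  exact le_trans (by exact_mod_cast h1) hT2

end Pool.Agent.Results.MP_7475bd_nt.UnlikePowers
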